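import Pool.Agent.H73.KG.Stmts

/-! Module CVR of project KG: posterior covariances are regular. -/

set_option autoImplicit false

open MeasureTheory Set

namespace Pool.Agent.H73.KG

open Pool.Agent.H84 Pool.Agent.H84.Sym Pool.Agent.H84.Sym.P2x Pool.Agent.H19.KL

theorem cvr_thm (E : Type) [NormedAddCommGroup E] [InnerProductSpace ℝ E]
    [FiniteDimensional ℝ E] [MeasurableSpace E] [BorelSpace E]
    (h1 : PWBStmt E) (h2 : RGCStmt E) (h3 : RGPStmt E) : CVRStmt E := by
  intro U t hU f g hf hg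
  obtain ⟨hc, hadd, hmul, -, -, -, hcongr⟩ := h2
  have hfg : GC (fun x => f x * g x) := GC.mul hf hg
  have r1 : RG (fun s θ => pm U s θ (fun x => f x * g x)) := (h3 U t hU _ hfg).1
  have r2 : RG (fun s θ => pm U s θ f) := (h3 U t hU _ hf).1
  have r3 : RG (fun s θ => pm U s θ g) := (h3 U t hU _ hg).1
  have r4 : RG (fun s θ => pm U s θ f * pm U s θ g) := hmul _ _ r2 r3
  have r5 : RG (fun s θ => (-1 : ℝ) * (pm U s θ f * pm U s θ g)) := hmul _ _ (hc (-1)) r4
  have r6 : RG (fun s θ => pm U s θ (fun x => f x * g x) +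
    (-1 : ℝ) * (pm U s θ f * pm U s θ g)) := hadd _ _ r1 r5
  refine hcongr _ _ r6 ?_
  intro s θ hs
  have e := (h1 U t hU).2.1 s θ hs
  simp only [cv]
  rw [e (fun x => f x * g x), e f, e g]
  ring

end Pool.Agent.H73.KG
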